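import Pool.Agent.H757_X15.ES.FinE
import Pool.Agent.H757_X15.ES.Sh
import Pool.Agent.H757_X15.MT.MOD
import Pool.Agent.H757_X15.DN.Fin
import Pool.Agent.Z702.Fin

/-!
# The rank form of the Birch and Swinnerton-Dyer conjecture for a positive proportion of all the quadratic
# twists of the non-CM curve `X_0(15)`: an exact criterion and the exact proportion

The family of the twists `E_D` of `X_0(15)` by ALL the squarefree `D > 1`, `D ≡ 1` or `49` modulo `60`, with
no condition on the prime factors of `D`; it has positive density `5 / (16 π²)` among the integers.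
Whenever `E_D(ℚ)` is finite and `Ш(E_D/ℚ)` has no element of order two, the rank form of the conjecture
holds for `E_D` with order and rank `0` (a 2-converse theorem).  This happens if and only if `Crit D`,
an elementary condition on quadratic residue symbols, and the proportion of these `D` in the family is
exactly `∏_{i ≥ 1} (1 - 2^{-i}) = 0.2887…`.

The modules `Pool.Agent.H757_X15` are the joint work of many helpers.
-/

set_option autoImplicit false

open Finset

open scoped Classical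

namespace Pool.Agent.Results.MP_696deb_nt.TwoConverseX15

/-- coefficients of the twist `E_D : y² = x³ + A D x + B D` of `X_0(15)` -/
def A (D : ℤ) : ℤ := -12987 * D ^ 2

/-- coefficients of the twist `E_D : y² = x³ + A D x + B D` of `X_0(15)` -/
def B (D : ℤ) : ℤ := -263466 * D ^ 3

/-- the curve `E_D` over `ℚ` -/
def E (D : ℤ) : WeierstrassCurve ℚ :=
  { a₁ := 0, a₂ := 0, a₃ := 0, a₄ := (A D : ℚ), a₆ := (B D : ℚ) }

/-- `E_D(ℚ)` is finite and `Ш(E_D/ℚ)` has no element of order two -/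
def RankZeroShaTwo (D : ℤ) : Prop :=
  Finite (E D).toAffine.Point ∧ ∀ x : Pool.Agent.TH841.SH.D.Sha (E D), 2 • x = 0 → x = 0

/-- the conclusion of the frozen statement for `y² = x³ + a x + b`, together with the fact that the
order of vanishing and the rank are both `0` -/
def BSDRankZero (a b : ℤ) : Prop :=
  4 * a ^ 3 + 27 * b ^ 2 ≠ 0 ∧
    ∃ F : ℂ → ℂ, Differentiable ℂ F ∧
      (∀ s : ℂ, (3 : ℝ) / 2 < s.re →
        HasProd
          (fun p : ℕ =>
            if p.Prime ∧ ¬ ((p : ℤ) ∣ 2 * (-4 * a ^ 3 - 27 * b ^ 2)) then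
              (1 - ((p : ℂ) - (Nat.card {q : ZMod p × ZMod p //
                  q.2 ^ 2 = q.1 ^ 3 + (a : ZMod p) * q.1 + (b : ZMod p)} : ℂ))
                  * (p : ℂ) ^ (-s) + (p : ℂ) ^ (1 - 2 * s))⁻¹
            else 1)
          (F s)) ∧
      analyticOrderAt F 1 =
        ((Module.finrank ℤ
          (WeierstrassCurve.Affine.Point
            (WeierstrassCurve.toAffine
              ({ a₁ := 0, a₂ := 0, a₃ := 0, a₄ := (a : ℚ), a₆ := (b : ℚ) } :
                WeierstrassCurve ℚ))) : ℕ) : ℕ∞) ∧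
      Module.finrank ℤ
        (WeierstrassCurve.Affine.Point
          (WeierstrassCurve.toAffine
            ({ a₁ := 0, a₂ := 0, a₃ := 0, a₄ := (a : ℚ), a₆ := (b : ℚ) } :
              WeierstrassCurve ℚ))) = 0

/-- the family: all the squarefree `D > 1`, `D ≡ 1` or `49` modulo `60` -/
def Family (D : ℕ) : Prop := 1 < D ∧ Squarefree D ∧ (D % 60 = 1 ∨ D % 60 = 49)

/-- the elementary condition: the only positive divisor `d` of `D` with `(d/5) = 1`, `(d/p) = 1` for all
primes `p ∣ D/d` and `(-(D/d)/p) = 1` for all primes `p ∣ d` is `d = 1` -/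
def Crit (D : ℕ) : Prop := ∀ d : ℕ, d ∣ D →
  (∀ p : ℕ, p.Prime → p ∣ D → ¬ p ∣ d → jacobiSym d p = 1) →
  (∀ p : ℕ, p.Prime → p ∣ d → jacobiSym (-((D / d : ℕ) : ℤ)) p = 1) →
  jacobiSym d 5 = 1 → d = 1

/-- the number of the `D ≤ X` with `Q D` -/
noncomputable def count (Q : ℕ → Prop) (X : ℕ) : ℕ := ((Icc 2 X).filter Q).card

section proof

open Pool.Agent.H757_X15 (WD facL)

theorem finrank_zero_of_finite {G : Type} [AddCommGroup G] (h : Finite G) :
    Module.finrank ℤ G = 0 := by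
  have h1 : Module.rank ℤ G = 0 := by
    rw [rank_eq_zero_iff]
    intro x
    have h2 : IsOfFinAddOrder x := isOfFinAddOrder_of_finite x
    obtain ⟨n, hn, hx⟩ := isOfFinAddOrder_iff_nsmul_eq_zero.1 h2
    exact ⟨n, by exact_mod_cast hn.ne', by exact_mod_cast hx⟩
  rw [Module.finrank, h1, map_zero]

theorem bsd_of {a b : ℤ} (h0 : 4 * a ^ 3 + 27 * b ^ 2 ≠ 0) {f : ℂ → ℂ} (hf : Differentiable ℂ f)
    (hp : ∀ s : ℂ, (3 : ℝ) / 2 < s.re →
        HasProd (fun l : {l : ℕ // l.Prime ∧ ¬ ((l : ℤ) ∣ 2 * (4 * a ^ 3 + 27 * b ^ 2))} =>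
          facL a b s l) (f s)) (h1 : f 1 ≠ 0)
    (hfin : Finite (WeierstrassCurve.Affine.Point
            (WeierstrassCurve.toAffine
              ({ a₁ := 0, a₂ := 0, a₃ := 0, a₄ := (a : ℚ), a₆ := (b : ℚ) } :
                WeierstrassCurve ℚ)))) : BSDRankZero a b := by
  refine ⟨h0, f, hf, ?_, ?_, finrank_zero_of_finite hfin⟩
  · intro s hs
    have hG : ∀ p : ℕ, (¬ ((p : ℤ) ∣ 2 * (-4 * a ^ 3 - 27 * b ^ 2))) ↔
        ¬ ((p : ℤ) ∣ 2 * (4 * a ^ 3 + 27 * b ^ 2)) := by
      intro p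
      have e : 2 * (-4 * a ^ 3 - 27 * b ^ 2) = -(2 * (4 * a ^ 3 + 27 * b ^ 2)) := by ring
      rw [e, dvd_neg]
    have h2 : HasProd ((fun p : ℕ => if p.Prime ∧ ¬ ((p : ℤ) ∣ 2 * (4 * a ^ 3 + 27 * b ^ 2)) then
        facL a b s p else 1) ∘ ((↑) : {l : ℕ | l.Prime ∧ ¬ ((l : ℤ) ∣ 2 * (4 * a ^ 3 + 27 * b ^ 2))} → ℕ))
        (f s) := by
      refine (congrArg (fun g => HasProd g (f s)) (funext fun p => ?_)).mp (hp s hs)
      simp only [Function.comp_apply]
      exact (if_pos p.2).symm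
    have h3 := (hasProd_subtype_iff_of_mulSupport_subset (by
      intro n hn
      rw [Function.mem_mulSupport] at hn
      by_contra h3
      exact hn (if_neg h3))).1 h2
    refine (congrArg (fun g => HasProd g (f s)) (funext fun p => ?_)).mp h3
    by_cases hpp : p.Prime ∧ ¬ ((p : ℤ) ∣ 2 * (4 * a ^ 3 + 27 * b ^ 2))
    · rw [if_pos hpp, if_pos ⟨hpp.1, (hG p).2 hpp.2⟩]
      unfold facL
      push_cast
      rfl
    · rw [if_neg hpp, if_neg fun h => hpp ⟨h.1, (hG p).1 h.2⟩]
  · rw [finrank_zero_of_finite hfin]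
    exact (hf.analyticAt 1).analyticOrderAt_eq_zero.2 h1

lemma nd {D : ℕ} (h : D % 60 = 1 ∨ D % 60 = 49) : (D : ℤ) % 4 = 1 ∧ ¬ (3 : ℤ) ∣ D ∧ ¬ (5 : ℤ) ∣ D := by
  refine ⟨?_, ?_, ?_⟩
  · rcases h with h | h <;> omega
  · intro h'
    have : 3 ∣ D := by exact_mod_cast h'
    rcases h with h | h <;> omega
  · intro h'
    have : 5 ∣ D := by exact_mod_cast h'
    rcases h with h | h <;> omega

theorem crit_iff {D : ℕ} (h : Family D) : RankZeroShaTwo D ↔ Crit D := by
  obtain ⟨h1, hs, hm⟩ := h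
  obtain ⟨h4, h3, h5⟩ := nd hm
  obtain ⟨-, -, -, -, -, f7, -⟩ := Pool.Agent.H757_X15.EE.t_FULL D hs hm (by omega)
  obtain ⟨t1, t2⟩ := Pool.Agent.H757_X15.EE.trn_sh Pool.Agent.Z702.f_TRN
    Pool.Agent.H757_X15.t_MOD h4 (Int.squarefree_natCast.2 hs) h3 h5
  have hc : Crit D ↔ Pool.Agent.H757_X15.DD.Crit D := Iff.rfl
  rw [hc, f7, t1, t2]
  refine and_congr Iff.rfl (forall_congr' fun x => ?_)
  rw [two_nsmul]
  exact Iff.rfl

theorem bsd {D : ℕ} (h : Family D) (hc : Crit D) : BSDRankZero (A D) (B D) := by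
  obtain ⟨hfin, f, hf, hfp, hf1⟩ := Pool.Agent.H757_X15.EE.t_RANK D h.2.1 h.2.2
    (by have := h.1; omega) hc
  have hD0 : (D : ℤ) ≠ 0 := by have := h.1; omega
  refine bsd_of ?_ hf hfp hf1 ?_
  · have e : 4 * A D ^ 3 + 27 * B D ^ 2 = (4 * (-12987) ^ 3 + 27 * 263466 ^ 2) * (D : ℤ) ^ 6 := by
      unfold A B
      ring
    rw [e]
    exact mul_ne_zero (by norm_num) (pow_ne_zero 6 hD0)
  · have e : ({ a₁ := 0, a₂ := 0, a₃ := 0, a₄ := ((A D : ℤ) : ℚ), a₆ := ((B D : ℤ) : ℚ) } :
        WeierstrassCurve ℚ) =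
        WeierstrassCurve.mk 0 0 0 (-12987 * (D : ℚ) ^ 2) (-263466 * (D : ℚ) ^ 3) := by
      unfold A B
      push_cast
      rfl
    rw [e]
    exact hfin

lemma crit_one : Crit 1 := fun d hd _ _ _ => Nat.dvd_one.1 hd

lemma count_eq (Q : ℕ → Prop) (X : ℕ) :
    count (fun D => Family D ∧ Q D) X + (if 1 ≤ X ∧ Q 1 then 1 else 0) =
    ((Icc 1 X).filter fun D => (Squarefree D ∧ (D % 60 = 1 ∨ D % 60 = 49)) ∧ Q D).card := by
  have e : count (fun D => Family D ∧ Q D) X = ((Icc 2 X).filter fun D =>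
      (Squarefree D ∧ (D % 60 = 1 ∨ D % 60 = 49)) ∧ Q D).card := by
    unfold count
    refine congrArg Finset.card (Finset.ext fun D => ?_)
    simp only [Finset.mem_filter, Finset.mem_Icc]
    unfold Family
    constructor
    · rintro ⟨h1, ⟨-, h3, h4⟩, h5⟩
      exact ⟨h1, ⟨h3, h4⟩, h5⟩
    · rintro ⟨h1, ⟨h3, h4⟩, h5⟩
      exact ⟨h1, ⟨by omega, h3, h4⟩, h5⟩
  rw [e]
  by_cases hX : 1 ≤ X
  · have e2 : Finset.Icc 1 X = insert 1 (Finset.Icc 2 X) := by
      ext n
      simp only [Finset.mem_Icc, Finset.mem_insert]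
      omega
    rw [e2, Finset.filter_insert]
    by_cases hQ : Q 1
    · rw [if_pos ⟨hX, hQ⟩, if_pos ⟨⟨squarefree_one, Or.inl (by norm_num)⟩, hQ⟩,
        Finset.card_insert_of_notMem (by simp)]
    · rw [if_neg (fun h => hQ h.2), if_neg (fun h => hQ h.2), add_zero]
  · have e3 : X = 0 := by omega
    subst e3
    simp

/-- the counts and the densities -/
theorem density (hD : Pool.Agent.H757_X15.DD.S_DEN) (hC : Pool.Agent.H757_X15.EE.S_CLASS)
    (P : ℕ → Prop) (hP : ∀ D, Family D → (P D ↔ Crit D)) :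
    Filter.Tendsto (fun X : ℕ => (count (fun D => Family D ∧ P D) X : ℝ) / (count Family X : ℝ))
      Filter.atTop (nhds (∏' i : ℕ, (1 - (1 / 2 : ℝ) ^ (i + 1)))) ∧
    Filter.Tendsto (fun X : ℕ => (count Family X : ℝ) / X) Filter.atTop
      (nhds (5 / (16 * Real.pi ^ 2))) := by
  set A : ℕ → ℝ := fun X => (((Finset.Icc 1 X).filter fun D => Squarefree D ∧
    Pool.Agent.H757_X15.DD.Fm D ∧ Pool.Agent.H757_X15.DD.Crit D).card : ℝ) with hA
  set B : ℕ → ℝ := fun X => (((Finset.Icc 1 X).filter fun D => Squarefree D ∧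
    Pool.Agent.H757_X15.DD.Fm D).card : ℝ) with hB
  set cc : ℝ := ∏' i : ℕ, (1 - (1 / 2 : ℝ) ^ (i + 1)) with hcc
  have hAB : Filter.Tendsto (fun X => A X / B X) Filter.atTop (nhds cc) := hD
  have hBX : Filter.Tendsto (fun X : ℕ => B X / X) Filter.atTop
    (nhds (5 / (16 * Real.pi ^ 2))) := hC
  have hX : Filter.Tendsto (fun X : ℕ => (X : ℝ)) Filter.atTop Filter.atTop :=
    tendsto_natCast_atTop_atTop
  have hpos : (0 : ℝ) < 5 / (16 * Real.pi ^ 2) := by positivity
  have hBt : Filter.Tendsto B Filter.atTop Filter.atTop := by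
    have h1 : Filter.Tendsto (fun X : ℕ => B X / X * X) Filter.atTop Filter.atTop :=
      hBX.pos_mul_atTop hpos hX
    refine h1.congr' ?_
    filter_upwards [Filter.eventually_ge_atTop 1] with X h
    have : (X : ℝ) ≠ 0 := by positivity
    field_simp
  have eA : ∀ X : ℕ, 1 ≤ X → (count (fun D => Family D ∧ P D) X : ℝ) = A X - 1 := by
    intro X h
    have e0 : count (fun D => Family D ∧ P D) X = count (fun D => Family D ∧ Crit D) X := by
      unfold count
      refine congrArg Finset.card (Finset.ext fun D => ?_)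
      simp only [Finset.mem_filter]
      exact and_congr_right fun _ => and_congr_right fun h => hP D h
    have e1 := count_eq Crit X
    rw [if_pos ⟨h, crit_one⟩] at e1
    have e2 : A X = ((count (fun D => Family D ∧ Crit D) X + 1 : ℕ) : ℝ) := by
      rw [e1]
      have e3 : ((Finset.Icc 1 X).filter fun D => (Squarefree D ∧ (D % 60 = 1 ∨ D % 60 = 49)) ∧
          Crit D) = (Finset.Icc 1 X).filter fun D => Squarefree D ∧
          Pool.Agent.H757_X15.DD.Fm D ∧ Pool.Agent.H757_X15.DD.Crit D := by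
        ext D
        simp only [Finset.mem_filter, and_assoc]
        exact Iff.rfl
      rw [e3]
    rw [e0, e2]
    push_cast
    ring
  have eB : ∀ X : ℕ, 1 ≤ X → (count Family X : ℝ) = B X - 1 := by
    intro X h
    have e1 := count_eq (fun _ => True) X
    rw [if_pos ⟨h, trivial⟩] at e1
    simp only [and_true] at e1
    have e2 : B X = ((count (fun D => Family D) X + 1 : ℕ) : ℝ) := by
      rw [e1]
      have e3 : ((Finset.Icc 1 X).filter fun D => Squarefree D ∧ (D % 60 = 1 ∨ D % 60 = 49)) =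
          (Finset.Icc 1 X).filter fun D => Squarefree D ∧ Pool.Agent.H757_X15.DD.Fm D := by
        ext D
        simp only [Finset.mem_filter]
        exact Iff.rfl
      rw [e3]
    rw [e2]
    push_cast
    ring
  have hinv : Filter.Tendsto (fun X => (B X)⁻¹) Filter.atTop (nhds 0) := hBt.inv_tendsto_atTop
  refine ⟨?_, ?_⟩
  · have h1 : Filter.Tendsto (fun X => (A X / B X - (B X)⁻¹) / (1 - (B X)⁻¹)) Filter.atTop
        (nhds ((cc - 0) / (1 - 0))) :=
      (hAB.sub hinv).div (tendsto_const_nhds.sub hinv) (by norm_num)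
    rw [sub_zero, sub_zero, div_one] at h1
    refine h1.congr' ?_
    filter_upwards [Filter.eventually_ge_atTop 1, hBt.eventually_gt_atTop 1] with X h h2
    rw [eA X h, eB X h]
    have h3 : B X ≠ 0 := by linarith
    have h4 : B X - 1 ≠ 0 := by linarith
    field_simp
  · have h1 : Filter.Tendsto (fun X : ℕ => B X / X - 1 / (X : ℝ)) Filter.atTop
        (nhds (5 / (16 * Real.pi ^ 2) - 0)) := by
      refine hBX.sub ?_
      simpa using tendsto_one_div_atTop_nhds_zero_nat (𝕜 := ℝ)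
    rw [sub_zero] at h1
    refine h1.congr' ?_
    filter_upwards [Filter.eventually_ge_atTop 1] with X h
    rw [eB X h]
    ring

end proof

/-- **Main theorem.** For every `D` of the family: if `E_D(ℚ)` is finite and `Ш(E_D/ℚ)[2] = 0`, then the
rank form of the conjecture holds for `E_D` with order and rank zero; the hypothesis is equivalent to
the elementary condition `Crit D`; its proportion in the family is exactly `∏_{i ≥ 1} (1 - 2^{-i})`,
which is between `0.2887` and `0.2888`; and the density of the family in the integers is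
`5 / (16 π²)`. -/
theorem result :
    (∀ D : ℕ, Family D → RankZeroShaTwo D → BSDRankZero (A D) (B D)) ∧
    (∀ D : ℕ, Family D → (RankZeroShaTwo D ↔ Crit D)) ∧
    Filter.Tendsto
      (fun X : ℕ => (count (fun D => Family D ∧ RankZeroShaTwo D) X : ℝ) / (count Family X : ℝ))
      Filter.atTop (nhds (∏' i : ℕ, (1 - (1 / 2 : ℝ) ^ (i + 1)))) ∧
    Filter.Tendsto (fun X : ℕ => (count Family X : ℝ) / X) Filter.atTop
      (nhds (5 / (16 * Real.pi ^ 2))) ∧
    0.2887 < ∏' i : ℕ, (1 - (1 / 2 : ℝ) ^ (i + 1)) ∧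
    ∏' i : ℕ, (1 - (1 / 2 : ℝ) ^ (i + 1)) < 0.2888 := by
  obtain ⟨d1, d2⟩ := density Pool.Agent.H757_X15.DD.t_DEN Pool.Agent.H757_X15.EE.t_CLASS
    (fun D => RankZeroShaTwo D) fun D hD => crit_iff hD
  have hc := Pool.Agent.H757_X15.DD.t_LA1.2.2.2
  exact ⟨fun D hF hR => bsd hF ((crit_iff hF).1 hR), fun D hF => crit_iff hF, d1, d2, hc.1, hc.2⟩

end Pool.Agent.Results.MP_696deb_nt.TwoConverseX15
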