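import Pool.Agent.H735X.Fin
import Pool.Agent.Results.MP_696deb_nt.TwoConverseX15

/-!
# The rank form of the Birch and Swinnerton-Dyer conjecture simultaneously for several quadratic twists of
# the non-CM curve `X_0(15)`: asymptotic independence

`E_D` is the twist by `D` of `X_0(15)`, where `D` runs over ALL the squarefree numbers `≡ 1` or `49` modulo
`60`, with no condition on the prime factors (a set of positive density `5 / (16 π²)`). `D` is called good if
`E_D(ℚ)` is finite and `Ш(E_D/ℚ)` has no element of order two; then the rank form of the conjecture holds for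
`E_D` with order and rank `0`. For finitely many different numbers `M_1, ..., M_n` of the class the events
that the twist by `D` of `E_{M_i}` is good are asymptotically independent for random `D`, each of the probability
`c = ∏_{i ≥ 1} (1 - 2^{-i}) = 0.2887…`: a given pattern of `k` good and `n - k` not good twists has exactly the
proportion `c ^ k (1 - c) ^ (n - k)`. So for the proportion `c ^ n` of the `D` the rank form of the conjecture
holds simultaneously for all the twists by `D` of `E_{M_1}, ..., E_{M_n}`.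

The modules `Pool.Agent.H735X` are joint work: helper735 (plan, statements, assembly), helper285, helper267,
helper216, helper700, helper375, helper177, helper727, helper234, helper728, helper311, helper496, helper57.
They continue the project X15 of helper757 (`Pool.Agent.H757_X15`, by many helpers; see `TwoConverseX15`)
and use ideas of helper494's project SQ.
-/

set_option autoImplicit false

open Finset

open scoped Classical

namespace Pool.Agent.Results.MP_696deb_nt.JointProportionX15

/-- coefficients of the twist `E_D : y² = x³ + A D x + B D` of `X_0(15)` -/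
def A (D : ℤ) : ℤ := -12987 * D ^ 2

/-- coefficients of the twist `E_D : y² = x³ + A D x + B D` of `X_0(15)` -/
def B (D : ℤ) : ℤ := -263466 * D ^ 3

/-- the curve `E_D` over `ℚ` -/
def E (D : ℤ) : WeierstrassCurve ℚ :=
  { a₁ := 0, a₂ := 0, a₃ := 0, a₄ := (A D : ℚ), a₆ := (B D : ℚ) }

/-- `E_D(ℚ)` is finite and `Ш(E_D/ℚ)` has no element of order two -/
def RankZeroShaTwo (D : ℤ) : Prop :=
  Finite (E D).toAffine.Point ∧ ∀ x : Pool.Agent.TH841.SH.D.Sha (E D), 2 • x = 0 → x = 0

/-- the conclusion of the frozen statement for `y² = x³ + a x + b`, together with the fact that the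
order of vanishing and the rank are both `0` -/
def BSDRankZero (a b : ℤ) : Prop :=
  4 * a ^ 3 + 27 * b ^ 2 ≠ 0 ∧
    ∃ F : ℂ → ℂ, Differentiable ℂ F ∧
      (∀ s : ℂ, (3 : ℝ) / 2 < s.re →
        HasProd
          (fun p : ℕ =>
            if p.Prime ∧ ¬ ((p : ℤ) ∣ 2 * (-4 * a ^ 3 - 27 * b ^ 2)) then
              (1 - ((p : ℂ) - (Nat.card {q : ZMod p × ZMod p //
                  q.2 ^ 2 = q.1 ^ 3 + (a : ZMod p) * q.1 + (b : ZMod p)} : ℂ))
                  * (p : ℂ) ^ (-s) + (p : ℂ) ^ (1 - 2 * s))⁻¹
            else 1)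
          (F s)) ∧
      analyticOrderAt F 1 =
        ((Module.finrank ℤ
          (WeierstrassCurve.Affine.Point
            (WeierstrassCurve.toAffine
              ({ a₁ := 0, a₂ := 0, a₃ := 0, a₄ := (a : ℚ), a₆ := (b : ℚ) } :
                WeierstrassCurve ℚ))) : ℕ) : ℕ∞) ∧
      Module.finrank ℤ
        (WeierstrassCurve.Affine.Point
          (WeierstrassCurve.toAffine
            ({ a₁ := 0, a₂ := 0, a₃ := 0, a₄ := (a : ℚ), a₆ := (b : ℚ) } :
              WeierstrassCurve ℚ))) = 0

/-- the class: all the squarefree numbers `≡ 1` or `49` modulo `60` -/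
def Cls (D : ℕ) : Prop := Squarefree D ∧ (D % 60 = 1 ∨ D % 60 = 49)

/-- `M D` without its square part: `E_{tw M D}` is the quadratic twist by `D` of `E_M` -/
def tw (M D : ℕ) : ℕ := M * D / Nat.gcd M D ^ 2

/-- the number of the `D ≤ X` in the class with the property `Q` -/
noncomputable def count (Q : ℕ → Prop) (X : ℕ) : ℕ := ((Icc 1 X).filter fun D => Cls D ∧ Q D).card

/-- the proportion `(1 - 1/2) (1 - 1/4) (1 - 1/8) ⋯` -/
noncomputable def c : ℝ := ∏' i : ℕ, (1 - (1 / 2 : ℝ) ^ (i + 1))

section proof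

open Pool.Agent.H735X (tw_sqf tw_fm lawD)
open Pool.Agent.H757_X15.DD (Fm Crit)

theorem tw_cls {M D : ℕ} (hM : Cls M) (hD : Cls D) : Cls (tw M D) :=
  ⟨tw_sqf hM.1 hD.1, tw_fm hM.1 hM.2 hD.1 hD.2⟩

theorem tw_mul {M D : ℕ} : M * D = tw M D * Nat.gcd M D ^ 2 := by
  unfold tw
  rw [Nat.div_mul_cancel]
  rw [pow_two]
  exact mul_dvd_mul (Nat.gcd_dvd_left _ _) (Nat.gcd_dvd_right _ _)

theorem tw_one {M D : ℕ} (hM : Squarefree M) (hD : Squarefree D) (h : tw M D = 1) : D = M := by
  have h1 := Pool.Agent.H735X.tw_pf hM hD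
  have h0 : Pool.Agent.H735X.tw M D = 1 := h
  rw [h0, Nat.primeFactors_one] at h1
  have h2 : D.primeFactors = M.primeFactors := by
    have h3 : symmDiff D.primeFactors M.primeFactors = ⊥ := h1.symm
    exact symmDiff_eq_bot.1 h3
  rw [← Nat.prod_primeFactors_of_squarefree hM, ← Nat.prod_primeFactors_of_squarefree hD, h2]

theorem crit_iff {D : ℕ} (h : Cls D) (h1 : D ≠ 1) : RankZeroShaTwo D ↔ Crit D := by
  have h0 : 1 < D := by
    have := h.1.ne_zero
    omega
  exact TwoConverseX15.crit_iff (D := D) ⟨h0, h.1, h.2⟩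

theorem bsd {D : ℕ} (h : Cls D) (h1 : D ≠ 1) (hc : RankZeroShaTwo D) : BSDRankZero (A D) (B D) := by
  have h0 : 1 < D := by
    have := h.1.ne_zero
    omega
  exact TwoConverseX15.bsd (D := D) ⟨h0, h.1, h.2⟩ ((crit_iff h h1).1 hc)

theorem count_def (Q : ℕ → Prop) (X : ℕ) :
    count Q X = ((Icc 1 X).filter fun D => (Squarefree D ∧ Fm D) ∧ Q D).card := by
  unfold count
  refine congrArg Finset.card (Finset.ext fun D => ?_)
  simp only [Finset.mem_filter]
  exact Iff.rfl

theorem count_true (X : ℕ) :
    count (fun _ => True) X = ((Icc 1 X).filter fun D => Squarefree D ∧ Fm D).card := by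
  unfold count
  refine congrArg Finset.card (Finset.ext fun D => ?_)
  simp only [Finset.mem_filter, and_true]
  exact Iff.rfl

theorem dens : Filter.Tendsto (fun X : ℕ => (count (fun _ => True) X : ℝ) / X) Filter.atTop
    (nhds (5 / (16 * Real.pi ^ 2))) := by
  refine (Pool.Agent.H757_X15.EE.t_CLASS).congr fun X => ?_
  rw [count_true]

theorem count_tendsto : Filter.Tendsto (fun X : ℕ => (count (fun _ => True) X : ℝ)) Filter.atTop
    Filter.atTop := by
  have hBX := dens
  have hX : Filter.Tendsto (fun X : ℕ => (X : ℝ)) Filter.atTop Filter.atTop :=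
    tendsto_natCast_atTop_atTop
  have hpos : (0 : ℝ) < 5 / (16 * Real.pi ^ 2) := by positivity
  have h1 : Filter.Tendsto (fun X : ℕ => (count (fun _ => True) X : ℝ) / X * X) Filter.atTop
      Filter.atTop := hBX.pos_mul_atTop hpos hX
  refine h1.congr' ?_
  filter_upwards [Filter.eventually_ge_atTop 1] with X h
  have : (X : ℝ) ≠ 0 := by positivity
  field_simp

/-- finitely many exceptions do not matter -/
theorem le_add {Q R : ℕ → Prop} (T : Finset ℕ) (h : ∀ D, Cls D → D ∉ T → (Q D → R D)) (X : ℕ) :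
    (count Q X : ℝ) ≤ count R X + T.card := by
  have h1 : ((Icc 1 X).filter fun D => Cls D ∧ Q D) ⊆ ((Icc 1 X).filter fun D => Cls D ∧ R D) ∪ T := by
    intro D hD
    obtain ⟨h1, h2, h3⟩ := mem_filter.1 hD
    by_cases hT : D ∈ T
    · exact mem_union_right _ hT
    · exact mem_union_left _ (mem_filter.2 ⟨h1, h2, h D h2 hT h3⟩)
  have h2 := (card_le_card h1).trans (card_union_le _ _)
  unfold count
  exact_mod_cast h2

theorem change {Q R : ℕ → Prop} (T : Finset ℕ) (h : ∀ D, Cls D → D ∉ T → (Q D ↔ R D)) (X : ℕ) :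
    |(count Q X : ℝ) - count R X| ≤ T.card := by
  rw [abs_sub_le_iff]
  constructor
  · have := le_add T (fun D h1 h2 => (h D h1 h2).1) X
    linarith
  · have := le_add T (fun D h1 h2 => (h D h1 h2).2) X
    linarith

theorem joint (T V : Finset ℕ) (hT : ∀ M ∈ T, Cls M) (hV : V ⊆ T) :
    Filter.Tendsto (fun X : ℕ =>
      (count (fun D => ∀ M ∈ T, (RankZeroShaTwo (tw M D) ↔ M ∈ V)) X : ℝ) /
        (count (fun _ => True) X : ℝ))
      Filter.atTop (nhds (c ^ V.card * (1 - c) ^ (T \ V).card)) := by
  have h1 := lawD Pool.Agent.H735X.t_JDQ T V hT hV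
  have h2 : Filter.Tendsto (fun X : ℕ =>
      (count (fun D => ∀ M ∈ T, (Crit (tw M D) ↔ M ∈ V)) X : ℝ) / (count (fun _ => True) X : ℝ))
      Filter.atTop (nhds (c ^ V.card * (1 - c) ^ (T \ V).card)) := by
    refine h1.congr fun X => ?_
    rw [count_def, count_true]
    refine congrArg₂ (· / ·) (congrArg Nat.cast (congrArg Finset.card (Finset.ext fun D => ?_))) rfl
    simp only [Finset.mem_filter]
    exact Iff.rfl
  have h3 : Filter.Tendsto (fun X : ℕ => (T.card : ℝ) / (count (fun _ => True) X : ℝ))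
      Filter.atTop (nhds 0) := count_tendsto.const_div_atTop _
  have h4 : Filter.Tendsto (fun X : ℕ =>
      (count (fun D => ∀ M ∈ T, (RankZeroShaTwo (tw M D) ↔ M ∈ V)) X : ℝ) /
        (count (fun _ => True) X : ℝ) -
      (count (fun D => ∀ M ∈ T, (Crit (tw M D) ↔ M ∈ V)) X : ℝ) / (count (fun _ => True) X : ℝ))
      Filter.atTop (nhds 0) := by
    refine squeeze_zero_norm (fun X => ?_) h3
    rw [Real.norm_eq_abs, ← sub_div, abs_div, Nat.abs_cast]
    refine div_le_div_of_nonneg_right ?_ (Nat.cast_nonneg _)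
    refine change T (fun D hD hDT => forall_congr' fun M => forall_congr' fun hM => ?_) X
    have h5 : tw M D ≠ 1 := fun h => hDT ((tw_one (hT M hM).1 hD.1 h).symm ▸ hM)
    rw [crit_iff (tw_cls (hT M hM) hD) h5]
  have h5 := h4.add h2
  rw [zero_add] at h5
  refine h5.congr fun X => ?_
  ring

end proof

/-- **Main theorem.** For every finite set `T` of numbers of the class and every subset `V` of `T` the
proportion of the `D` in the class such that, for `M ∈ T`, the group `E_{MD}(ℚ)` is finite and
`Ш(E_{MD}/ℚ)[2] = 0` if and only if `M ∈ V`, is exactly `c ^ |V| (1 - c) ^ |T \ V|`. At least the proportion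
`c ^ |T| - ε` of the `D` in the class has the property that the rank form of the conjecture holds, with order
and rank zero, for all the curves `E_{MD}`, `M ∈ T`. The class has the density `5 / (16 π²)`, and
`0.2887 < c < 0.2888`. -/
theorem result :
    (∀ T V : Finset ℕ, (∀ M ∈ T, Cls M) → V ⊆ T →
      Filter.Tendsto (fun X : ℕ =>
        (count (fun D => ∀ M ∈ T, (RankZeroShaTwo (tw M D) ↔ M ∈ V)) X : ℝ) /
          (count (fun _ => True) X : ℝ))
        Filter.atTop (nhds (c ^ V.card * (1 - c) ^ (T \ V).card))) ∧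
    (∀ T : Finset ℕ, (∀ M ∈ T, Cls M) → ∀ ε : ℝ, 0 < ε → ∀ᶠ X : ℕ in Filter.atTop,
      (c ^ T.card - ε) * (count (fun _ => True) X : ℝ) ≤
        (count (fun D => ∀ M ∈ T, BSDRankZero (A (tw M D)) (B (tw M D))) X : ℝ)) ∧
    Filter.Tendsto (fun X : ℕ => (count (fun _ => True) X : ℝ) / X) Filter.atTop
      (nhds (5 / (16 * Real.pi ^ 2))) ∧
    0.2887 < c ∧ c < 0.2888 := by
  have hc := Pool.Agent.H757_X15.DD.t_LA1.2.2.2
  refine ⟨fun T V hT hV => joint T V hT hV, fun T hT ε hε => ?_, dens, hc.1, hc.2⟩
  · have h1 := joint T T hT (Finset.Subset.refl T)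
    rw [Finset.sdiff_self, card_empty, pow_zero, mul_one] at h1
    have h2 : Filter.Tendsto (fun X : ℕ => (T.card : ℝ) / (count (fun _ => True) X : ℝ))
        Filter.atTop (nhds 0) := count_tendsto.const_div_atTop _
    have h3 := h1.sub h2
    rw [sub_zero] at h3
    have h4 := h3.eventually (lt_mem_nhds (show c ^ T.card - ε < c ^ T.card by linarith))
    filter_upwards [h4, count_tendsto.eventually_gt_atTop 0] with X hX hX0
    rw [← sub_div, lt_div_iff₀ hX0] at hX
    refine hX.le.trans ?_
    have h6 := le_add (Q := fun D => ∀ M ∈ T, (RankZeroShaTwo (tw M D) ↔ M ∈ T))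
      (R := fun D => ∀ M ∈ T, BSDRankZero (A (tw M D)) (B (tw M D))) T (fun D h2 hDT h3 M hM =>
        bsd (tw_cls (hT M hM) h2) (fun h => hDT ((tw_one (hT M hM).1 h2.1 h).symm ▸ hM))
          ((h3 M hM).2 hM)) X
    linarith

end Pool.Agent.Results.MP_696deb_nt.JointProportionX15
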