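import Pool.Agent.H424.BZ.EQ

/-!
# The rank form and the Riemann hypothesis from the sums of Mestre and Nagao, with exceptional cut-offs

Let `C : y² = x³ + a x + b` be an elliptic curve over `ℚ`, `a, b ∈ ℤ`, let `N_p` be the number of affine points
modulo the good primes `p ∤ 2Δ`, `a_p = p - N_p`, let `F` be the entire continuation of the incomplete `L`-series,
and let

`S(n) = ∑_{p ≤ n, p ∤ 2Δ} a_p log p / p`

be the sums, with the sharp cut-off, by which Mestre and Nagao found curves of large rank. Kim and Murty proved that,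
if `S(n) / log n` has a limit as `n → ∞` through ALL `n`, then the Riemann hypothesis for `C` holds and the limit is
`1/2 - ord_{s=1} F`. Here exceptional cut-offs are admitted, and the result is an equivalence, for every curve. For
every real number `ρ` the following are equivalent:

1. `F` has no zeros with `Re s > 1` (the Riemann hypothesis for `C`) and `ρ = ord_{s=1} F`;
2. for every `ε > 0` there is a `δ > 0` such that for all large `M` all but `M^(1-δ)` of the cut-offs `n ≤ M` satisfy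
   `|S(n)| ≤ n^ε`; and for every `ε > 0` the set of the `n` with `|S(n) - (1/2 - ρ) log n| > ε log n` has a
   finite logarithmic measure `∑ 1/n`;
3. for every `ε > 0` there is a `δ > 0` such that for INFINITELY MANY `M` all but `M^(1-δ)` of the cut-offs `n ≤ M`
   satisfy `S(n) ≥ -n^ε`; and for every `ε > 0` the set of the `n` with `|S(n) - (1/2 - ρ) log n| ≤ ε log n` has a
   positive UPPER logarithmic density.

In particular, with `ρ = rank C(ℚ)`, the rank form of the conjecture together with the Riemann hypothesis for `C` is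
equivalent to 2 and to 3: it can be read off from the values `S(n) / log n ≈ 1/2 - rank` at a positive proportion of
the cut-offs only. The first condition in 3 cannot fail by little: if `F` has a zero with `Re s > 1`, there is
an `ε > 0` such that for every `δ > 0` and all large `M` at least `M^(1-δ)` of the `n ≤ M` satisfy `S(n) < -n^ε`.

Proof. (`Pool.Agent.H424.BZ`.) Let `A(n) = -∑_{p^k ≤ n} (α_p^k + β_p^k) / (k p^k)` and let
`T(n) = -∑_{p^k ≤ n} (α_p^k + β_p^k) log p / p^k`. So `A(n)` is the logarithm of the product of Birch and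
Swinnerton-Dyer up to a bounded term, and `T(n) = ∑_{k ≤ n} (A(k) - A(k-1)) log k`. Let `b` be the supremum of the real
parts of the zeros of `F(1 + s)`, `b > 0`. Then (`Pool.Agent.H424.BX`, from the explicit formula with Gaussian weights)
`A(n) > n^{b - ε}` for `≥ M^{1-δ}` of the `n ≤ M`. If `T(n) ≤ n^c`, `c < b`, for all but `M^{1-δ}` of the `n ≤ M`,
partial summation, `A(n) = T(n)/log n + ∑_{k < n} T(k) (1/log k - 1/log(k+1))`, and Cauchy's inequality with the
mean square `∑ T(n)² n^{-1-2x} < ∞`, `x > b`, for the sum over the exceptional `k` give `A(n) ≤ n^{c'}`, `c' < b`, for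
all but `M^{1-δ'}` of the `n ≤ M`, a contradiction. If there are no zeros, `∑ (A(n) - m log log n - κ)²/n < ∞`,
`m = ord_{s=1} F`, (`Pool.Agent.TH270.MS`), and partial summation gives `T(n) = m log n + o(log n)` outside a set of
finite logarithmic measure. Finally, `T(n) = -S(n) + (1/2) log n + o(log n)`, by the theorem of Mertens and the theorem
of Rankin and Selberg, the convergence of `∑_p (a_p²/p - 1)/p` (`Pool.Agent.TH941`, from the Rankin-Selberg method and a
Tauberian theorem).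
-/

set_option autoImplicit false

namespace Pool.Agent.Results.MP_696deb_nt.NagaoWithExceptions

open Pool.Agent.W263.BSD Filter Topology Classical CongruenceSubgroup UpperHalfPlane
open scoped MatrixGroups

/-- `S(n)`: the sum of `a_p log p / p`, `a_p = p - N_p`, over the primes `p ≤ n`, `p ∤ 2Δ`. -/
noncomputable def S (a b : ℤ) (n : ℕ) : ℝ :=
  ∑ p ∈ (Finset.range (n + 1)).filter (GoodPrime a b), ((p : ℝ) - pointCount a b p) * Real.log p / p

/-- The `n`-th Fourier coefficient of `f`. -/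
noncomputable def coef {N : ℕ} (f : CuspForm (Gamma0 N : Subgroup (GL (Fin 2) ℝ)) 2) (n : ℕ) : ℂ :=
  (qExpansion 1 f).coeff n

/-- `f ∈ S_2(Γ₀(N))` is the newform of the elliptic curve `E : y² = x³ + a x + b` of conductor `N`: the
Fourier coefficients `c(n)` of `f` are real with `c(1) = 1`, they satisfy the Hecke relations
`c(mn) = c(m) c(n)` for coprime `m`, `n` and `c(p^(j+2)) = c(p) c(p^(j+1)) - p c(p^j)` (without the last
term if `p ∣ N`), `c(p) = a_p = p - N_p` (`N_p` affine points) for all primes `p ∤ 2Δ`, `|c(p)| ≤ 2 √p` for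
all `p ∤ N` (Hasse) and `c(p) = 0, 1, -1` for `p ∣ N`. -/
structure IsNewformOf (a b : ℤ) (N : ℕ) (f : CuspForm (Gamma0 N : Subgroup (GL (Fin 2) ℝ)) 2) :
    Prop where
  one : coef f 1 = 1
  real : ∀ n, (coef f n).im = 0
  mul : ∀ m n : ℕ, Nat.Coprime m n → coef f (m * n) = coef f m * coef f n
  pow : ∀ p j : ℕ, p.Prime → coef f (p ^ (j + 2)) = coef f p * coef f (p ^ (j + 1)) -
      (if p ∣ N then 0 else (p : ℂ) * coef f (p ^ j))
  points : ∀ p : ℕ, GoodPrime a b p → coef f p = (p : ℂ) - (pointCount a b p : ℂ)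
  good : ∀ p : ℕ, p.Prime → ¬ p ∣ N → ‖coef f p‖ ≤ 2 * Real.sqrt p
  bad : ∀ p : ℕ, p.Prime → p ∣ N → coef f p = 0 ∨ coef f p = 1 ∨ coef f p = -1

/-- `F` has no zeros with `Re s > 1`. -/
def NoZeros (F : ℂ → ℂ) : Prop := ∀ s : ℂ, 1 < s.re → F s ≠ 0

/-- The number of the elements `n` of `R` with `1 ≤ n ≤ M`. -/
noncomputable def count (R : Set ℕ) (M : ℕ) : ℕ := {n : ℕ | 1 ≤ n ∧ n ≤ M ∧ n ∈ R}.ncard

/-- The sum of the `1/n` over the elements `n` of `R` with `1 ≤ n ≤ M`. -/
noncomputable def logSum (R : Set ℕ) (M : ℕ) : ℝ := ∑ n ∈ (Finset.Icc 1 M).filter (· ∈ R), (1 : ℝ) / n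

/-- For every `ε > 0` there is a `δ > 0` such that for all large `M` the inequality `|S(n)| > n^ε` holds for at
most `M^(1-δ)` of the numbers `n ≤ M`. -/
def FewExceptions (a b : ℤ) : Prop := ∀ ε : ℝ, 0 < ε → ∃ δ : ℝ, 0 < δ ∧ ∀ᶠ M : ℕ in atTop,
  (count {n : ℕ | (n : ℝ) ^ ε < |S a b n|} M : ℝ) ≤ (M : ℝ) ^ (1 - δ)

/-- For every `ε > 0` there is a `δ > 0` such that for infinitely many `M` the inequality `S(n) < -n^ε` holds for
at most `M^(1-δ)` of the numbers `n ≤ M`. -/
def SometimesFewSmall (a b : ℤ) : Prop := ∀ ε : ℝ, 0 < ε → ∃ δ : ℝ, 0 < δ ∧ ∃ᶠ M : ℕ in atTop,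
  (count {n : ℕ | S a b n < -(n : ℝ) ^ ε} M : ℝ) ≤ (M : ℝ) ^ (1 - δ)

/-- For every `ε > 0` the inequality `|S(n) - (1/2 - ρ) log n| ≤ ε log n` holds for all `n` outside a set of
finite logarithmic measure. -/
def AlmostAlways (a b : ℤ) (ρ : ℝ) : Prop := ∀ ε : ℝ, 0 < ε → Summable fun n : ℕ =>
  if ε * Real.log n < |S a b n - (1 / 2 - ρ) * Real.log n| then (1 : ℝ) / n else 0

/-- For every `ε > 0` the inequality `|S(n) - (1/2 - ρ) log n| ≤ ε log n` holds for all `n` in a set of positive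
upper logarithmic density. -/
def OnPositiveDensity (a b : ℤ) (ρ : ℝ) : Prop := ∀ ε : ℝ, 0 < ε → ∃ η : ℝ, 0 < η ∧ ∃ᶠ M : ℕ in atTop,
  η * Real.log M ≤ logSum {n : ℕ | |S a b n - (1 / 2 - ρ) * Real.log n| ≤ ε * Real.log n} M

/-- The rank of the group of rational points of `y² = x³ + a x + b`. -/
noncomputable def rank (a b : ℤ) : ℕ :=
  Module.finrank ℤ
    (WeierstrassCurve.Affine.Point
      (WeierstrassCurve.toAffine
        ({ a₁ := 0, a₂ := 0, a₃ := 0, a₄ := (a : ℚ), a₆ := (b : ℚ) } : WeierstrassCurve ℚ)))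

/-! ### Translation -/

variable {a b : ℤ}

theorem S_eq (n : ℕ) : S a b n = Pool.Agent.H424.BZ.SS a b n := rfl

theorem hecke {N : ℕ} {f : CuspForm (Gamma0 N : Subgroup (GL (Fin 2) ℝ)) 2}
    (hf : IsNewformOf a b N f) : Pool.Agent.TH941.Hecke f where
  one := hf.one
  real := hf.real
  mul := hf.mul
  pow := hf.pow
  good := hf.good
  bad := fun p hp h => by
    rcases hf.bad p hp h with h1 | h1 | h1
    · have h2 : ‖coef f p‖ ≤ 1 := by rw [h1]; simp
      exact h2
    · have h2 : ‖coef f p‖ ≤ 1 := by rw [h1]; simp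
      exact h2
    · have h2 : ‖coef f p‖ ≤ 1 := by rw [h1]; simp
      exact h2

theorem nz_iff (F : ℂ → ℂ) : Pool.Agent.H424.BY.NZ (fun s => F (1 + s)) ↔ NoZeros F := by
  unfold Pool.Agent.H424.BY.NZ NoZeros
  constructor
  · intro h s hs
    have := h (s - 1) (by rw [Complex.sub_re, Complex.one_re]; linarith)
    simpa using this
  · intro h s hs
    exact h (1 + s) (by rw [Complex.add_re, Complex.one_re]; linarith)

theorem sav_iff : Pool.Agent.H424.BY.Sav (fun n => -S a b n) ↔ FewExceptions a b := by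
  unfold Pool.Agent.H424.BY.Sav FewExceptions
  simp only [abs_neg]
  rfl

theorem savF_iff : Pool.Agent.H424.BY.SavF (fun n => -S a b n) ↔ SometimesFewSmall a b := by
  have h : ∀ ε : ℝ, {n : ℕ | (n : ℝ) ^ ε < -S a b n} = {n : ℕ | S a b n < -(n : ℝ) ^ ε} := by
    intro ε
    ext n
    show (n : ℝ) ^ ε < -S a b n ↔ S a b n < -(n : ℝ) ^ ε
    constructor <;> intro h <;> linarith
  unfold Pool.Agent.H424.BY.SavF SometimesFewSmall
  simp only [h]
  rfl

theorem abs_eq' (ρ : ℝ) (n : ℕ) : |(-S a b n + 1 / 2 * Real.log n) - ρ * Real.log n| =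
    |S a b n - (1 / 2 - ρ) * Real.log n| := by
  rw [← abs_neg]
  congr 1
  ring

/-- **The rank and the Riemann hypothesis from the sums of Mestre and Nagao with exceptional cut-offs.** -/
theorem result (a b : ℤ) (hΔ : 4 * a ^ 3 + 27 * b ^ 2 ≠ 0) (F : ℂ → ℂ) (hF : IsLSeries a b F)
    (N : ℕ) [NeZero N] (f : CuspForm (Gamma0 N : Subgroup (GL (Fin 2) ℝ)) 2) (hf : IsNewformOf a b N f) :
    (∀ ρ : ℝ, List.TFAE [
      NoZeros F ∧ ∃ m : ℕ, ρ = m ∧ analyticOrderAt F 1 = m,
      FewExceptions a b ∧ AlmostAlways a b ρ,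
      SometimesFewSmall a b ∧ OnPositiveDensity a b ρ]) ∧
    List.TFAE [
      NoZeros F ∧ analyticOrderAt F 1 = rank a b,
      FewExceptions a b ∧ AlmostAlways a b (rank a b),
      SometimesFewSmall a b ∧ OnPositiveDensity a b (rank a b)] ∧
    (¬ NoZeros F → ∃ ε : ℝ, 0 < ε ∧ ∀ δ : ℝ, 0 < δ → ∀ᶠ M : ℕ in atTop,
      (M : ℝ) ^ (1 - δ) ≤ count {n : ℕ | S a b n < -(n : ℝ) ^ ε} M) := by
  have hb : Pool.Agent.TH941.Belongs a b f := fun p hp => hf.points p hp
  have H := Pool.Agent.H424.BZ.exQ hΔ hF (hecke hf) hb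
  have hg : ∀ᶠ n : ℕ in atTop, |(-S a b n) - Pool.Agent.H424.BZ.Tl (Pool.Agent.TH270.MS.EQ.nQ a b)
      (Pool.Agent.TH270.MS.EQ.alQ a b) n| ≤ 2 * Real.log n := Pool.Agent.H424.BZ.near_g hΔ (hecke hf) hb
  have key : ∀ ρ : ℝ, List.TFAE [
      NoZeros F ∧ ∃ m : ℕ, ρ = m ∧ analyticOrderAt F 1 = m,
      FewExceptions a b ∧ AlmostAlways a b ρ,
      SometimesFewSmall a b ∧ OnPositiveDensity a b ρ] := by
    intro ρ
    have h := Pool.Agent.H424.BZ.critT H (g := fun n => -S a b n)
      (f := fun n => -S a b n + 1 / 2 * Real.log n) (C := 2) hg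
      (fun ε hε => Pool.Agent.H424.BZ.near_f hΔ (hecke hf) hb hε) ρ
    rw [nz_iff, Pool.Agent.H424.BY.order_shift, sav_iff, savF_iff] at h
    simp only [abs_eq'] at h
    exact h
  refine ⟨key, ?_, ?_⟩
  · have h := key (rank a b)
    have e : (NoZeros F ∧ ∃ m : ℕ, ((rank a b : ℕ) : ℝ) = m ∧ analyticOrderAt F 1 = m) ↔
        (NoZeros F ∧ analyticOrderAt F 1 = rank a b) := by
      refine and_congr Iff.rfl ⟨?_, fun h => ⟨_, rfl, h⟩⟩
      rintro ⟨m, h1, h2⟩
      have h3 : rank a b = m := by exact_mod_cast h1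
      rw [h3]
      exact h2
    rw [← e]
    exact h
  · intro hnz
    unfold NoZeros at hnz
    push Not at hnz
    obtain ⟨s, hs, h0⟩ := hnz
    refine ⟨(s.re - 1) / 2, by linarith, fun δ hδ => ?_⟩
    have h1 := Pool.Agent.H424.BZ.manyT H hg (c := (s.re - 1) / 2) (by linarith) (s₀ := s - 1)
      (by rw [Complex.sub_re, Complex.one_re]; linarith) (by simpa using h0) hδ
    refine h1.mono fun M hM => hM.le.trans (le_of_eq ?_)
    have h2 : {n : ℕ | (n : ℝ) ^ ((s.re - 1) / 2) < -S a b n} = {n : ℕ | S a b n < -(n : ℝ) ^ ((s.re - 1) / 2)} := by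
      ext n
      show (n : ℝ) ^ ((s.re - 1) / 2) < -S a b n ↔ S a b n < -(n : ℝ) ^ ((s.re - 1) / 2)
      constructor <;> intro h <;> linarith
    rw [h2]
    rfl

end Pool.Agent.Results.MP_696deb_nt.NagaoWithExceptions
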