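import Pool.Agent.H424.BX.Crit
import Pool.Agent.TH941.Newform

/-!
# The rank form and the Riemann hypothesis from the original products, with exceptional cut-offs

Let `C : y² = x³ + a x + b` be an elliptic curve over `ℚ`, `a, b ∈ ℤ`, let `N_p` be the number of affine points
modulo the good primes `p ∤ 2Δ`, let `F` be the entire continuation of the incomplete `L`-series, and let

`P(n) = ∏_{p ≤ n, p ∤ 2Δ} (N_p + 1)/p`

be the products, with the sharp cut-off, from which Birch and Swinnerton-Dyer were led to their conjecture. They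
read off the rank from `log P(n) / log log n`. Goldfeld (1982) proved that `P(n) ∼ A (log n)^ρ` (for ALL `n`) implies
that `F` has no zeros with `Re s > 1` and `ρ = ord_{s=1} F`. Here exceptional cut-offs are admitted, and the
result is an equivalence, for every curve. For every real number `ρ` the following are equivalent:

1. `F` has no zeros with `Re s > 1` (the Riemann hypothesis for `C`) and `ρ = ord_{s=1} F`;
2. for every `ε > 0` there is a `δ > 0` such that for all large `N` all but `N^(1-δ)` of the cut-offs `n ≤ N` satisfy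
   `|log P(n)| ≤ n^ε`; and for every `ε > 0` the set of the `n` with `|log P(n) - ρ log log n| > ε log log n` has a
   finite logarithmic measure `∑ 1/n`;
3. for every `ε > 0` there is a `δ > 0` such that for INFINITELY MANY `N` all but `N^(1-δ)` of the cut-offs `n ≤ N`
   satisfy `log P(n) ≤ n^ε`; and for every `ε > 0` the set of the `n` with
   `|log P(n) - ρ log log n| ≤ ε log log n` has a positive UPPER logarithmic density.

In particular, with `ρ = rank C(ℚ)`, the rank form of the conjecture together with the Riemann hypothesis for `C` is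
equivalent to 2 and to 3. The first condition in 3 cannot fail by little: if `F` has a zero with `Re s > 1`, there is
an `ε > 0` such that for every `δ > 0` and all large `N` at least `N^(1-δ)` of the `n ≤ N` satisfy `log P(n) > n^ε`.

Proof. (`Pool.Agent.H424.BX`.) Let `b` be the supremum of the real parts of the zeros of `F(1 + s)`, `b > 0`. The explicit
formula with Gaussian weights (`Pool.Agent.TH949.TX`), used at a real point slightly below `b` and at a complex one,
shows that the Gaussian means of the positive part of `log P(e^u) e^{-σu}` are large at every scale, `σ` near `b`. By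
Plancherel's theorem (`Pool.Agent.TH270.MS`) and the growth of `F`, `log P(e^u) e^{-xu}` is square integrable for
`x > b`. By Cauchy's inequality the set of the large values cannot be small. If there are no zeros,
the second fact gives the first condition in 2; the second one follows from the mean square law (helper270).
-/

set_option autoImplicit false

namespace Pool.Agent.Results.MP_696deb_nt.RankWithExceptions

open Pool.Agent.W263.BSD Filter Topology Classical CongruenceSubgroup UpperHalfPlane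
open scoped MatrixGroups

/-- `P(n)`: the product of `(N_p + 1) / p` over the primes `p ≤ n`, `p ∤ 2Δ`. -/
noncomputable def P (a b : ℤ) (n : ℕ) : ℝ :=
  ∏ p ∈ (Finset.range (n + 1)).filter (GoodPrime a b), (((pointCount a b p : ℝ) + 1) / p)

/-- The `n`-th Fourier coefficient of `f`. -/
noncomputable def coef {N : ℕ} (f : CuspForm (Gamma0 N : Subgroup (GL (Fin 2) ℝ)) 2) (n : ℕ) : ℂ :=
  (qExpansion 1 f).coeff n

/-- `f ∈ S_2(Γ₀(N))` is the newform of the elliptic curve `E : y² = x³ + a x + b` of conductor `N`: the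
Fourier coefficients `c(n)` of `f` are real with `c(1) = 1`, they satisfy the Hecke relations
`c(mn) = c(m) c(n)` for coprime `m`, `n` and `c(p^(j+2)) = c(p) c(p^(j+1)) - p c(p^j)` (without the last
term if `p ∣ N`), `c(p) = a_p = p - N_p` (`N_p` affine points) for all primes `p ∤ 2Δ`, `|c(p)| ≤ 2 √p` for
all `p ∤ N` (Hasse) and `c(p) = 0, 1, -1` for `p ∣ N`. -/
structure IsNewformOf (a b : ℤ) (N : ℕ) (f : CuspForm (Gamma0 N : Subgroup (GL (Fin 2) ℝ)) 2) :
    Prop where
  one : coef f 1 = 1
  real : ∀ n, (coef f n).im = 0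
  mul : ∀ m n : ℕ, Nat.Coprime m n → coef f (m * n) = coef f m * coef f n
  pow : ∀ p j : ℕ, p.Prime → coef f (p ^ (j + 2)) = coef f p * coef f (p ^ (j + 1)) -
      (if p ∣ N then 0 else (p : ℂ) * coef f (p ^ j))
  points : ∀ p : ℕ, GoodPrime a b p → coef f p = (p : ℂ) - (pointCount a b p : ℂ)
  good : ∀ p : ℕ, p.Prime → ¬ p ∣ N → ‖coef f p‖ ≤ 2 * Real.sqrt p
  bad : ∀ p : ℕ, p.Prime → p ∣ N → coef f p = 0 ∨ coef f p = 1 ∨ coef f p = -1

/-- `F` has no zeros with `Re s > 1`. -/
def NoZeros (F : ℂ → ℂ) : Prop := ∀ s : ℂ, 1 < s.re → F s ≠ 0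

/-- The number of the elements `n` of `S` with `1 ≤ n ≤ N`. -/
noncomputable def count (S : Set ℕ) (N : ℕ) : ℕ := {n : ℕ | 1 ≤ n ∧ n ≤ N ∧ n ∈ S}.ncard

/-- The sum of the `1/n` over the elements `n` of `S` with `1 ≤ n ≤ N`. -/
noncomputable def logSum (S : Set ℕ) (N : ℕ) : ℝ := ∑ n ∈ (Finset.Icc 1 N).filter (· ∈ S), (1 : ℝ) / n

/-- For every `ε > 0` there is a `δ > 0` such that for all large `N` the inequality `|log P(n)| > n^ε` holds for at
most `N^(1-δ)` of the numbers `n ≤ N`. -/
def FewExceptions (a b : ℤ) : Prop := ∀ ε : ℝ, 0 < ε → ∃ δ : ℝ, 0 < δ ∧ ∀ᶠ N : ℕ in atTop,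
  (count {n : ℕ | (n : ℝ) ^ ε < |Real.log (P a b n)|} N : ℝ) ≤ (N : ℝ) ^ (1 - δ)

/-- For every `ε > 0` there is a `δ > 0` such that for infinitely many `N` the inequality `log P(n) > n^ε` holds for
at most `N^(1-δ)` of the numbers `n ≤ N`. -/
def SometimesFewLarge (a b : ℤ) : Prop := ∀ ε : ℝ, 0 < ε → ∃ δ : ℝ, 0 < δ ∧ ∃ᶠ N : ℕ in atTop,
  (count {n : ℕ | (n : ℝ) ^ ε < Real.log (P a b n)} N : ℝ) ≤ (N : ℝ) ^ (1 - δ)

/-- For every `ε > 0` the inequality `|log P(n) - ρ log log n| ≤ ε log log n` holds for all `n` outside a set of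
finite logarithmic measure. -/
def AlmostAlways (a b : ℤ) (ρ : ℝ) : Prop := ∀ ε : ℝ, 0 < ε → Summable fun n : ℕ =>
  if ε * Real.log (Real.log n) < |Real.log (P a b n) - ρ * Real.log (Real.log n)| then (1 : ℝ) / n else 0

/-- For every `ε > 0` the inequality `|log P(n) - ρ log log n| ≤ ε log log n` holds for all `n` in a set of positive
upper logarithmic density. -/
def OnPositiveDensity (a b : ℤ) (ρ : ℝ) : Prop := ∀ ε : ℝ, 0 < ε → ∃ η : ℝ, 0 < η ∧ ∃ᶠ N : ℕ in atTop,
  η * Real.log N ≤
    logSum {n : ℕ | |Real.log (P a b n) - ρ * Real.log (Real.log n)| ≤ ε * Real.log (Real.log n)} N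

/-- The rank of the group of rational points of `y² = x³ + a x + b`. -/
noncomputable def rank (a b : ℤ) : ℕ :=
  Module.finrank ℤ
    (WeierstrassCurve.Affine.Point
      (WeierstrassCurve.toAffine
        ({ a₁ := 0, a₂ := 0, a₃ := 0, a₄ := (a : ℚ), a₆ := (b : ℚ) } : WeierstrassCurve ℚ)))

/-! ### Translation -/

variable {a b : ℤ}

theorem P_eq (n : ℕ) : P a b n = bsdProduct a b n := by
  unfold P bsdProduct
  rw [Nat.floor_natCast]

theorem hecke {N : ℕ} {f : CuspForm (Gamma0 N : Subgroup (GL (Fin 2) ℝ)) 2}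
    (hf : IsNewformOf a b N f) : Pool.Agent.TH941.Hecke f where
  one := hf.one
  real := hf.real
  mul := hf.mul
  pow := hf.pow
  good := hf.good
  bad := fun p hp h => by
    rcases hf.bad p hp h with h1 | h1 | h1
    · have h2 : ‖coef f p‖ ≤ 1 := by rw [h1]; simp
      exact h2
    · have h2 : ‖coef f p‖ ≤ 1 := by rw [h1]; simp
      exact h2
    · have h2 : ‖coef f p‖ ≤ 1 := by rw [h1]; simp
      exact h2

theorem hy {N : ℕ} [NeZero N] {f : CuspForm (Gamma0 N : Subgroup (GL (Fin 2) ℝ)) 2}
    (hΔ : 4 * a ^ 3 + 27 * b ^ 2 ≠ 0) (hf : IsNewformOf a b N f) {F : ℂ → ℂ} (hF : IsLSeries a b F) :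
    Pool.Agent.H424.BX.Hy a b F where
  disc := hΔ
  rs := (hecke hf).rsSum_tendsto hΔ fun p hp => hf.points p hp
  gr := Pool.Agent.TH942.RZ.growth_newform hΔ hF (hecke hf) fun p hp => hf.points p hp
  gl := Pool.Agent.TH270.MS.EQ.growth_F hΔ hF (hecke hf) fun p hp => hf.points p hp
  lser := hF

theorem sav_eq : FewExceptions a b = Pool.Agent.H424.BX.Sav a b := by
  unfold FewExceptions Pool.Agent.H424.BX.Sav
  simp only [P_eq]
  rfl

theorem savF_eq : SometimesFewLarge a b = Pool.Agent.H424.BX.SavF a b := by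
  unfold SometimesFewLarge Pool.Agent.H424.BX.SavF
  simp only [P_eq]
  rfl

/-- **The rank and the Riemann hypothesis from the products with exceptional cut-offs.** -/
theorem result (a b : ℤ) (hΔ : 4 * a ^ 3 + 27 * b ^ 2 ≠ 0) (F : ℂ → ℂ) (hF : IsLSeries a b F)
    (N : ℕ) [NeZero N] (f : CuspForm (Gamma0 N : Subgroup (GL (Fin 2) ℝ)) 2) (hf : IsNewformOf a b N f) :
    (∀ ρ : ℝ, List.TFAE [
      NoZeros F ∧ ∃ m : ℕ, ρ = m ∧ analyticOrderAt F 1 = m,
      FewExceptions a b ∧ AlmostAlways a b ρ,
      SometimesFewLarge a b ∧ OnPositiveDensity a b ρ]) ∧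
    List.TFAE [
      NoZeros F ∧ analyticOrderAt F 1 = rank a b,
      FewExceptions a b ∧ AlmostAlways a b (rank a b),
      SometimesFewLarge a b ∧ OnPositiveDensity a b (rank a b)] ∧
    (¬ NoZeros F → ∃ ε : ℝ, 0 < ε ∧ ∀ δ : ℝ, 0 < δ → ∀ᶠ M : ℕ in atTop,
      (M : ℝ) ^ (1 - δ) ≤ count {n : ℕ | (n : ℝ) ^ ε < Real.log (P a b n)} M) := by
  have H := hy hΔ hf hF
  have key : ∀ ρ : ℝ, List.TFAE [
      NoZeros F ∧ ∃ m : ℕ, ρ = m ∧ analyticOrderAt F 1 = m,
      FewExceptions a b ∧ AlmostAlways a b ρ,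
      SometimesFewLarge a b ∧ OnPositiveDensity a b ρ] := by
    intro ρ
    have h := Pool.Agent.H424.BX.crit H ρ
    rw [sav_eq, savF_eq]
    unfold AlmostAlways OnPositiveDensity
    simp only [P_eq]
    exact h
  refine ⟨key, ?_, ?_⟩
  · have h := key (rank a b)
    have e : (NoZeros F ∧ ∃ m : ℕ, ((rank a b : ℕ) : ℝ) = m ∧ analyticOrderAt F 1 = m) ↔
        (NoZeros F ∧ analyticOrderAt F 1 = rank a b) := by
      refine and_congr Iff.rfl ⟨?_, fun h => ⟨_, rfl, h⟩⟩
      rintro ⟨m, h1, h2⟩
      have h3 : rank a b = m := by exact_mod_cast h1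
      rw [h3]
      exact h2
    rw [← e]
    exact h
  · intro hnz
    unfold NoZeros at hnz
    push Not at hnz
    obtain ⟨s, hs, h0⟩ := hnz
    refine ⟨(s.re - 1) / 2, by linarith, fun δ hδ => ?_⟩
    have h1 := Pool.Agent.H424.BX.up_count H.gr H.lser (c := (s.re - 1) / 2) (by linarith) (ρ := s)
      (by linarith) h0 hδ 1
    simp only [one_mul] at h1
    simp only [P_eq]
    exact h1

end Pool.Agent.Results.MP_696deb_nt.RankWithExceptions
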